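import Pool.Agent.Q155.GN.Stm

/-!
# GN-BIL: bilinear sums of quadratic symbols over the Gaussian integers
-/

set_option autoImplicit false
set_option linter.all false

open Finset
open scoped Classical

namespace Pool.Agent.Q177.GN

open H385 (ZI nrm)
open Pool.Agent.Y699 (PP PS qr QB SB PB PD jac Bil box mem_SB jac_prime qr_cases)
open Q155.GN

theorem sg_s {x y : ZI} (h : ¬ x ∣ y) : sg (s x y) = (qr x y : ℝ) := by
  have h10 : ¬ (1 : ZMod 2) = 0 := one_ne_zero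
  unfold sg s
  rcases qr_cases h with h1 | h1
  · have h2 : ¬ qr x y = -1 := by rw [h1]; decide
    rw [if_neg h2, h1]
    simp
  · rw [if_pos h1, if_neg h10, h1]
    norm_num

theorem bil : S_BIL := by
  obtain ⟨C, hC1, hC⟩ := box
  refine ⟨(2 * C) ^ 24, one_le_pow₀ (by linarith), ?_⟩
  intro P Q A B z c d hP hQ hdis hz hzA hzB hc hd
  have hPA : P ⊆ SB A := fun x hx => mem_SB.2 ⟨(hP x hx).2, (hP x hx).1.ps⟩
  have hQB : Q ⊆ SB B := fun x hx => mem_SB.2 ⟨(hQ x hx).2, (hQ x hx).1.ps⟩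
  have h1 := hC (fun x => if x ∈ P then c x else 0) (fun y => if y ∈ Q then d y else 0)
    (fun x => by
      show |if x ∈ P then c x else 0| ≤ 1
      split_ifs
      · exact hc x
      · rw [abs_zero]; exact zero_le_one)
    (fun y => by
      show |if y ∈ Q then d y else 0| ≤ 1
      split_ifs
      · exact hd y
      · rw [abs_zero]; exact zero_le_one) A B (hz.trans hzA) (hz.trans hzB)
  have e1 : Bil (fun x => if x ∈ P then c x else 0) (fun y => if y ∈ Q then d y else 0) A B =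
      ∑ π ∈ P, ∑ ρ ∈ Q, c π * d ρ * sg (s π ρ) := by
    unfold Pool.Agent.Y699.Bil
    refine (sum_subset hPA fun x _ hx => ?_).symm.trans (sum_congr rfl fun x hx => ?_)
    · refine sum_eq_zero fun y _ => ?_
      show (if x ∈ P then c x else 0) * (if y ∈ Q then d y else 0) * (jac x y : ℝ) = 0
      rw [if_neg hx, zero_mul, zero_mul]
    · refine (sum_subset hQB fun y _ hy => ?_).symm.trans (sum_congr rfl fun y hy => ?_)
      · show (if x ∈ P then c x else 0) * (if y ∈ Q then d y else 0) * (jac x y : ℝ) = 0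
        rw [if_neg hy, mul_zero, zero_mul]
      · show (if x ∈ P then c x else 0) * (if y ∈ Q then d y else 0) * (jac x y : ℝ) = _
        rw [if_pos hx, if_pos hy, jac_prime (hP x hx).1, sg_s fun hd' => ?_]
        have he := (hP x hx).1.eq_of_dvd (hQ y hy).1 hd'
        exact (Finset.disjoint_left.1 hdis) hx (he ▸ hy)
  rw [e1] at h1
  have hz0 : (0 : ℝ) < z := by exact_mod_cast hz
  have hzA' : (z : ℝ) ≤ A := by exact_mod_cast hzA
  have hzB' : (z : ℝ) ≤ B := by exact_mod_cast hzB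
  have hA0 : (0 : ℝ) < A := lt_of_lt_of_le hz0 hzA'
  have hB0 : (0 : ℝ) < B := lt_of_lt_of_le hz0 hzB'
  have h2 : (A : ℝ) ^ (-(1 / 24) : ℝ) ≤ (z : ℝ) ^ (-(1 / 24) : ℝ) :=
    Real.rpow_le_rpow_of_nonpos hz0 hzA' (by norm_num)
  have h3 : (B : ℝ) ^ (-(1 / 24) : ℝ) ≤ (z : ℝ) ^ (-(1 / 24) : ℝ) :=
    Real.rpow_le_rpow_of_nonpos hz0 hzB' (by norm_num)
  set q : ℝ := (z : ℝ) ^ (-(1 / 24) : ℝ) with hq
  have hq24 : q ^ 24 * z = 1 := by
    rw [hq, ← Real.rpow_natCast, ← Real.rpow_mul hz0.le]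
    norm_num
    rw [Real.rpow_neg_one]
    exact inv_mul_cancel₀ hz0.ne'
  have h4 : |∑ π ∈ P, ∑ ρ ∈ Q, c π * d ρ * sg (s π ρ)| ≤ 2 * C * (A * B) * q := by
    refine h1.trans ?_
    have h5 : (A : ℝ) * B * ((A : ℝ) ^ (-(1 / 24) : ℝ) + (B : ℝ) ^ (-(1 / 24) : ℝ)) ≤
        A * B * (q + q) := by
      apply mul_le_mul_of_nonneg_left (add_le_add h2 h3) (by positivity)
    have h6 := mul_le_mul_of_nonneg_left h5 (by linarith : (0 : ℝ) ≤ C)
    refine h6.trans (le_of_eq ?_)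
    ring
  have h5 := pow_le_pow_left₀ (abs_nonneg _) h4 24
  calc |∑ π ∈ P, ∑ ρ ∈ Q, c π * d ρ * sg (s π ρ)| ^ 24 * z ≤
      (2 * C * (A * B) * q) ^ 24 * z := mul_le_mul_of_nonneg_right h5 hz0.le
    _ = (2 * C) ^ 24 * ((A : ℝ) * B) ^ 24 * (q ^ 24 * z) := by ring
    _ = (2 * C) ^ 24 * ((A : ℝ) * B) ^ 24 := by rw [hq24, mul_one]

end Pool.Agent.Q177.GN
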