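import Pool.Agent.Q155.GN.Stm3

/-!
# GN-CNV: the lower bound for the group of Tate and Shafarevich
-/

set_option autoImplicit false
set_option linter.all false

open Finset NumberField IsDedekindDomain
open scoped Classical

namespace Pool.Agent.Q177.GN

open H385 (ZI nrm im1)
open Pool.Agent.Y699 (PP PS qr)
open Pool.Agent.Y682 (IsT MP)
open Pool.Agent.Y715.Z (em0 em0_inj em0_ne em0_apply im1_sq)
open Pool.Agent.H304R2.EC.A1 (prim prim_mul prim_one)
open Q155.GN

theorem z2 (a : ZMod 2) : a = 0 ∨ a = 1 := by revert a; decide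

/-- the primes where `x = 1` -/
noncomputable def U1 (S : Finset ZI) (x : ZI → ZMod 2) : Finset ZI := S.filter fun π => x π = 1

/-- the other primes -/
noncomputable def U0 (S : Finset ZI) (x : ZI → ZMod 2) : Finset ZI := S.filter fun π => ¬ x π = 1

/-- the product -/
noncomputable def dd (T : Finset ZI) : ZI := ∏ π ∈ T, π

theorem dd_mul (S : Finset ZI) (x : ZI → ZMod 2) : dd (U1 S x) * dd (U0 S x) = dd S :=
  Finset.prod_filter_mul_prod_filter_not _ _ _

theorem dd_ne {T : Finset ZI} (hT : ∀ π ∈ T, PP π) : dd T ≠ 0 :=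
  prod_ne_zero_iff.2 fun π hπ => (hT π hπ).ne

theorem dd_prim {T : Finset ZI} (hT : ∀ π ∈ T, PP π) : prim (dd T) := by
  refine Finset.prod_induction _ prim (fun a b => prim_mul) prim_one ?_
  intro π hπ
  exact (hT π hπ).prm

theorem dvd_dd {T : Finset ZI} (hT : ∀ π ∈ T, PP π) {π : ZI} (hπ : PP π) : π ∣ dd T ↔ π ∈ T := by
  constructor
  · intro h
    obtain ⟨ρ, hρ, h1⟩ := (Prime.dvd_finset_prod_iff hπ.pr _).1 h
    rw [hπ.eq_of_dvd (hT ρ hρ) h1]
    exact hρ
  · intro h
    exact dvd_prod_of_mem _ h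

theorem sqf_dd {T : Finset ZI} (hT : ∀ π ∈ T, PP π) : Squarefree (dd T) := by
  refine Finset.squarefree_prod_of_pairwise_isCoprime ?_ ?_
  · intro π hπ ρ hρ hne
    exact ((hT π hπ).cop (hT ρ hρ) hne).isRelPrime
  · intro π hπ
    exact (hT π hπ).ps.sqf

theorem not_sq {T : Finset ZI} (hT : ∀ π ∈ T, PP π) (hne : T.Nonempty) {c : ZI} (hc : c ≠ 0)
    (w : ZI) : ¬ c ^ 2 * dd T = w ^ 2 := by
  intro h
  have h1 : c ∣ w := (IsIntegrallyClosed.pow_dvd_pow_iff two_ne_zero).1 ⟨dd T, h.symm⟩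
  obtain ⟨u, rfl⟩ := h1
  have h2 : dd T = u ^ 2 := by
    apply mul_left_cancel₀ (pow_ne_zero 2 hc)
    rw [h]
    ring
  have h3 : IsUnit u := sqf_dd hT u ⟨1, by rw [h2]; ring⟩
  have h4 : IsUnit (dd T) := by
    rw [h2]
    exact h3.pow 2
  obtain ⟨π, hπ⟩ := hne
  exact (hT π hπ).pr.not_isUnit (isUnit_of_dvd_unit ((dvd_dd hT (hT π hπ)).2 hπ) h4)

section

variable {K : Type} [Field K] [NumberField K] (e : ZI ≃+* 𝓞 K)

theorem sq_desc {z : ZI} (h : IsSquare (em0 e z)) : ∃ w : ZI, z = w ^ 2 := by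
  obtain ⟨q, hq⟩ := h
  have h1 : IsIntegral (𝓞 K) (q ^ 2) := by
    rw [pow_two, ← hq, em0_apply]
    exact isIntegral_algebraMap
  obtain ⟨y, hy⟩ := IsIntegrallyClosed.exists_algebraMap_eq_of_isIntegral_pow (R := 𝓞 K) two_pos h1
  obtain ⟨w, rfl⟩ := e.surjective y
  refine ⟨w, em0_inj e ?_⟩
  rw [hq, map_pow, em0_apply, hy, pow_two]

theorem not_isSq {T : Finset ZI} (hT : ∀ π ∈ T, PP π) (hne : T.Nonempty) {c : ZI} (hc : c ≠ 0) :
    ¬ IsSquare (em0 e (c ^ 2 * dd T)) := by
  intro h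
  obtain ⟨w, hw⟩ := sq_desc e h
  exact not_sq hT hne hc w hw

end

/-- the parity of the class -/
def par : ZMod 4 →+* ZMod 2 := ZMod.castHom (show 2 ∣ 4 by norm_num) (ZMod 2)

theorem par_one (a : ZMod 4) : par a = 1 ↔ (a = 1 ∨ a = 3) := by revert a; decide

/-- the linear form -/
noncomputable def ph (S : Finset ZI) : Kl S →ₗ[ZMod 2] ZMod 2 where
  toFun x := ∑ π ∈ S, x.1 π * par (fc π)
  map_add' x y := by
    rw [← sum_add_distrib]
    refine sum_congr rfl fun π _ => ?_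
    show (x.1 π + y.1 π) * _ = _
    ring
  map_smul' c x := by
    rw [RingHom.id_apply, smul_eq_mul, mul_sum]
    refine sum_congr rfl fun π _ => ?_
    show (c * x.1 π) * _ = _
    ring

theorem ph_apply (S : Finset ZI) (x : Kl S) : ph S x = ∑ π ∈ S, x.1 π * par (fc π) := rfl

theorem fin_Kl (S : Finset ZI) : Finite (Kl S) := by
  refine Finite.of_injective (fun x : Kl S => fun π : S => x.1 π.1) ?_
  intro x y h
  apply Subtype.ext
  funext π
  by_cases hπ : π ∈ S
  · exact congrFun h ⟨π, hπ⟩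
  · rw [x.2.1 π hπ, y.2.1 π hπ]

/-- the constant -/
noncomputable def oneS (S : Finset ZI) : Kl S := ⟨fun π => if π ∈ S then 1 else 0, by
  refine ⟨fun π hπ => if_neg hπ, fun π hπ => ?_⟩
  refine sum_eq_zero fun ρ hρ => ?_
  show s π ρ * ((if ρ ∈ S then (1 : ZMod 2) else 0) + if π ∈ S then 1 else 0) = 0
  rw [if_pos hρ, if_pos hπ, show (1 : ZMod 2) + 1 = 0 by decide, mul_zero]⟩

theorem ph_one {S : Finset ZI} (hO : Od S) : ph S (oneS S) = 1 := by
  rw [ph_apply]
  have h1 : ∑ π ∈ S, (oneS S).1 π * par (fc π) = par (∑ π ∈ S, fc π) := by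
    rw [map_sum]
    refine sum_congr rfl fun π hπ => ?_
    show (if π ∈ S then (1 : ZMod 2) else 0) * _ = _
    rw [if_pos hπ, one_mul]
  rw [h1, par_one]
  exact hO

theorem card_ker {S : Finset ZI} (hO : Od S) : Nat.card (LinearMap.ker (ph S)) = 2 ^ bb S := by
  haveI := fin_Kl S
  have h1 := LinearMap.finrank_range_add_finrank_ker (ph S)
  have h2 : LinearMap.range (ph S) = ⊤ := by
    rw [LinearMap.range_eq_top]
    intro c
    refine ⟨c • oneS S, ?_⟩
    rw [map_smul, ph_one hO, smul_eq_mul, mul_one]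
  rw [h2, finrank_top, Module.finrank_self] at h1
  rw [Module.natCard_eq_pow_finrank (K := ZMod 2), Nat.card_zmod]
  congr 1
  unfold bb
  omega

theorem ker_fc {S : Finset ZI} {x : Kl S} (hx : ph S x = 0) :
    ¬ (∑ π ∈ U1 S x.1, fc π = 1 ∨ ∑ π ∈ U1 S x.1, fc π = 3) := by
  rw [← par_one, map_sum]
  have h1 : ∑ π ∈ U1 S x.1, par (fc π) = ph S x := by
    rw [ph_apply]
    unfold U1
    rw [sum_filter]
    refine sum_congr rfl fun π _ => ?_
    rcases z2 (x.1 π) with h | h
    · rw [h, if_neg (by decide), zero_mul]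
    · rw [h, if_pos rfl, one_mul]
  rw [h1, hx]
  decide

theorem sym_cond (hP : SymP) {S : Finset ZI} (hS : ∀ π ∈ S, PP π) {x : ZI → ZMod 2}
    (hx : x ∈ Kl S) {π : ZI} (hπ : π ∈ S) : (¬ x π = 1 → qr π (dd (U1 S x)) = 1) ∧
      (x π = 1 → qr π (dd (U0 S x)) = 1) := by
  have h1 := hx.2 π hπ
  constructor
  · intro h
    have h0 : x π = 0 := (z2 (x π)).resolve_right h
    refine (hP.prod π (U1 S x) (hS π hπ) (fun u hu => hS u (mem_filter.1 hu).1)
      (fun hu => h (mem_filter.1 hu).2)).1 ?_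
    rw [← h1]
    unfold U1
    rw [sum_filter]
    refine sum_congr rfl fun ρ _ => ?_
    rw [h0, add_zero]
    rcases z2 (x ρ) with h | h
    · rw [h, if_neg (by decide), mul_zero]
    · rw [h, if_pos rfl, mul_one]
  · intro h
    refine (hP.prod π (U0 S x) (hS π hπ) (fun u hu => hS u (mem_filter.1 hu).1)
      (fun hu => (mem_filter.1 hu).2 h)).1 ?_
    rw [← h1]
    unfold U0
    rw [sum_filter]
    refine sum_congr rfl fun ρ _ => ?_
    rw [h]
    rcases z2 (x ρ) with h | h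
    · rw [h, if_pos (by decide), zero_add, mul_one]
    · rw [h, if_neg (by decide), show (1 : ZMod 2) + 1 = 0 by decide, mul_zero]

theorem four_dvd {d : ZI} (h : prim d) (h5 : ¬ d.norm % 8 = 5) : (4 : ZI) ∣ d - 1 := by
  obtain ⟨h1, h2⟩ := h
  have h3 : d.norm = d.re ^ 2 + d.im ^ 2 := Pool.Agent.H304R2.EC.A1.norm_def' d
  have h4 : d.im % 4 = 0 := by
    by_contra h4
    have h6 : d.im % 4 = 2 := by omega
    have h7 : d.re % 4 = 3 := by omega
    obtain ⟨a, ha⟩ : ∃ a, d.im = 4 * a + 2 := ⟨d.im / 4, by omega⟩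
    obtain ⟨b, hb⟩ : ∃ b, d.re = 4 * b + 3 := ⟨d.re / 4, by omega⟩
    apply h5
    rw [h3, ha, hb]
    have h8 : (4 * b + 3) ^ 2 + (4 * a + 2) ^ 2 =
        8 * (2 * b ^ 2 + 3 * b + 1 + 2 * a ^ 2 + 2 * a) + 5 := by ring
    rw [h8]
    omega
  have h5 : d.re % 4 = 1 := by omega
  refine ⟨⟨(d.re - 1) / 4, d.im / 4⟩, ?_⟩
  have h8 : (4 : ZI) = ((4 : ℤ) : ZI) := by norm_num
  rw [h8]
  ext
  · rw [Zsqrtd.re_sub, Zsqrtd.re_mul, Zsqrtd.re_one, Zsqrtd.re_intCast, Zsqrtd.im_intCast]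
    show d.re - 1 = 4 * ((d.re - 1) / 4) + -1 * 0 * (d.im / 4)
    omega
  · rw [Zsqrtd.im_sub, Zsqrtd.im_mul, Zsqrtd.im_one, Zsqrtd.re_intCast, Zsqrtd.im_intCast]
    show d.im - 0 = 4 * (d.im / 4) + 0 * ((d.re - 1) / 4)
    omega

theorem onei_dvd {d : ZI} (h : prim d) : (⟨1, 1⟩ : ZI) ∣ d - 1 := by
  obtain ⟨h1, h2⟩ := h
  refine ⟨⟨(d.re - 1 + d.im) / 2, (d.im - (d.re - 1)) / 2⟩, ?_⟩
  ext
  · rw [Zsqrtd.re_sub, Zsqrtd.re_mul, Zsqrtd.re_one]
    show d.re - 1 = 1 * ((d.re - 1 + d.im) / 2) + -1 * 1 * ((d.im - (d.re - 1)) / 2)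
    omega
  · rw [Zsqrtd.im_sub, Zsqrtd.im_mul, Zsqrtd.im_one]
    show d.im - 0 = 1 * ((d.im - (d.re - 1)) / 2) + 1 * ((d.re - 1 + d.im) / 2)
    omega

section

variable {K : Type} [Field K] [NumberField K] (e : ZI ≃+* 𝓞 K)

/-- the local conditions at the finite places -/
theorem loc (hP : SymP) (hG : S_LGD) (hT : S_LTW) (hB : S_LBD) {S : Finset ZI}
    (hS : ∀ π ∈ S, PP π) {x : Kl S} (hx : ph S x = 0) (v : HeightOneSpectrum (𝓞 K)) :
    LC (v.adicCompletion K) 0 (algebraMap K (v.adicCompletion K) (em0 e (dd S)))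
      (algebraMap K (v.adicCompletion K) (em0 e (dd (U1 S x.1)))) ∧
    LC (v.adicCompletion K) 0 (algebraMap K (v.adicCompletion K) (-(em0 e (dd S)) ^ 2))
      (algebraMap K (v.adicCompletion K) (em0 e (dd (U1 S x.1)))) := by
  have hS1 : ∀ π ∈ U1 S x.1, PP π := fun π hπ => hS π (mem_filter.1 hπ).1
  have hS0 : ∀ π ∈ U0 S x.1, PP π := fun π hπ => hS π (mem_filter.1 hπ).1
  have hle : ∀ z : ZI, v.valuation K (em0 e z) ≤ 1 := fun z =>
    HeightOneSpectrum.valuation_le_one v _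
  rcases lt_or_eq_of_le (show v.valuation K 2 ≤ 1 by
    have := hle 2
    rwa [map_ofNat] at this) with h2 | h2
  · have h1 := hT K e v h2 (dd (U1 S x.1)) (dd (U0 S x.1)) (four_dvd (dd_prim hS1) ?_)
      (onei_dvd (dd_prim hS0))
    · rwa [dd_mul] at h1
    · intro h3
      exact ker_fc hx ((hP.five (U1 S x.1) hS1).1 h3)
  · by_cases h3 : v.valuation K (em0 e (dd (U1 S x.1))) = 1 ∧
        v.valuation K (em0 e (dd (U0 S x.1))) = 1
    · exact hG K (em0 e im1) (im1_sq e) v h2 _ _ (em0 e (dd (U0 S x.1)))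
        (by rw [← map_mul, dd_mul]) h3.1 h3.2
    · have h4 : e (dd S) ∈ v.asIdeal := by
        rw [← dd_mul S x.1, map_mul]
        by_cases h5 : v.valuation K (em0 e (dd (U1 S x.1))) = 1
        · have h6 : v.valuation K (em0 e (dd (U0 S x.1))) < 1 :=
            lt_of_le_of_ne (hle _) fun h => h3 ⟨h5, h⟩
          rw [em0_apply, HeightOneSpectrum.valuation_lt_one_iff_mem] at h6
          exact Ideal.mul_mem_left _ _ h6
        · have h6 : v.valuation K (em0 e (dd (U1 S x.1))) < 1 := lt_of_le_of_ne (hle _) h5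
          rw [em0_apply, HeightOneSpectrum.valuation_lt_one_iff_mem] at h6
          exact Ideal.mul_mem_right _ _ h6
      have h5 : ∃ π ∈ S, e π ∈ v.asIdeal := by
        unfold dd at h4
        rw [map_prod] at h4
        exact (Ideal.IsPrime.prod_mem_iff (hp := v.isPrime)).1 h4
      obtain ⟨π, hπ, hπv⟩ := h5
      have h6 := hB K e v π (dd (U1 S x.1)) (dd (U0 S x.1)) (hS π hπ) hπv
        (by rw [dd_mul]; exact sqf_dd hS) (by rw [dd_mul]; exact dd_ne hS) ?_
      · rwa [dd_mul] at h6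
      · obtain ⟨h7, h8⟩ := sym_cond hP hS x.2 hπ
        by_cases h9 : x.1 π = 1
        · right
          exact ⟨(dvd_dd hS1 (hS π hπ)).2 (mem_filter.2 ⟨hπ, h9⟩), h8 h9⟩
        · left
          refine ⟨fun h => h9 ?_, h7 h9⟩
          exact (mem_filter.1 ((dvd_dd hS1 (hS π hπ)).1 h)).2

/-- the infinite places -/
theorem inf {i : K} (hi : i ^ 2 = -1) (v : InfinitePlace K) (a b d : v.Completion) (hd : d ≠ 0) :
    LC v.Completion a b d := by
  have hv : v.IsComplex := by
    rw [← InfinitePlace.not_isReal_iff_isComplex]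
    intro h
    have h1 := congrArg (InfinitePlace.embedding_of_isReal h) hi
    rw [map_pow, map_neg, map_one] at h1
    nlinarith [sq_nonneg (InfinitePlace.embedding_of_isReal h i)]
  set ψ := InfinitePlace.Completion.ringEquivComplexOfIsComplex hv with hψ
  obtain ⟨y, hy⟩ := IsAlgClosed.exists_pow_nat_eq
    (ψ (d ^ 3 - 2 * a * d ^ 2 + (a ^ 2 - 4 * b) * d)) (n := 2) (by norm_num)
  refine ⟨d, ψ.symm y, 1, hd, ?_, by ring⟩
  rw [← map_pow, hy, RingEquiv.symm_apply_apply]

end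

/-- the symmetric difference -/
theorem prod_two {S : Finset ZI} (hS : ∀ π ∈ S, PP π) (x y : ZI → ZMod 2) :
    ∃ c : ZI, c ≠ 0 ∧ dd (U1 S x) * dd (U1 S y) = c ^ 2 * dd (S.filter fun π => ¬ x π = y π) := by
  refine ⟨dd (S.filter fun π => x π = 1 ∧ y π = 1), dd_ne fun π hπ => hS π (mem_filter.1 hπ).1, ?_⟩
  unfold dd U1
  rw [prod_filter, prod_filter, prod_filter, prod_filter, ← prod_mul_distrib, ← prod_pow,
    ← prod_mul_distrib]
  refine prod_congr rfl fun π _ => ?_
  rcases z2 (x π) with h | h <;> rcases z2 (y π) with h' | h' <;> rw [h, h'] <;> simp <;> ring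

theorem cnv : S_CNV := by
  intro hP hCV hTor hG hT hB S hS hO K _ _ e W hCu hFin
  haveI := fin_Kl S
  set D := em0 e (∏ π ∈ S, π) with hD
  have hDd : D = em0 e (dd S) := rfl
  have hSne : S.Nonempty := by
    rw [nonempty_iff_ne_empty]
    intro h
    unfold Od at hO
    rw [h, sum_empty] at hO
    revert hO
    decide
  have hD0 : D ≠ 0 := em0_ne e (dd_ne hS)
  have hDsq : ¬ IsSquare D := by
    have := not_isSq e hS hSne (one_ne_zero (α := ZI))
    rwa [one_pow, one_mul] at this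
  have hi : (em0 e im1 : K) ^ 2 = -1 := im1_sq e
  -- the elements of the kernel
  obtain ⟨ε⟩ : Nonempty (Fin (2 ^ bb S) ≃ LinearMap.ker (ph S)) := by
    have h1 := card_ker hO
    exact ⟨(Finite.equivFinOfCardEq h1).symm⟩
  set δ : LinearMap.ker (ph S) → K := fun x => em0 e (dd (U1 S x.1.1)) with hδ
  have hδ0 : ∀ x, δ x ≠ 0 := fun x => em0_ne e (dd_ne fun π hπ => hS π (mem_filter.1 hπ).1)
  have hglob : ∀ x y, x ≠ y → ¬ IsSquare (δ x * δ y) ∧ ¬ IsSquare (δ x * δ y * D) := by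
    intro x y hxy
    obtain ⟨c, hc, hcc⟩ := prod_two hS x.1.1 y.1.1
    set T := S.filter fun π => ¬ x.1.1 π = y.1.1 π with hTd
    have hTS : T ⊆ S := filter_subset _ _
    have hT1 : ∀ π ∈ T, PP π := fun π hπ => hS π (hTS hπ)
    have hTne : T.Nonempty := by
      rw [nonempty_iff_ne_empty]
      intro h
      apply hxy
      apply Subtype.ext
      apply Subtype.ext
      funext π
      by_cases hπ : π ∈ S
      · by_contra h1
        have : π ∈ T := mem_filter.2 ⟨hπ, h1⟩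
        rw [h] at this
        exact absurd this (notMem_empty _)
      · rw [x.1.2.1 π hπ, y.1.2.1 π hπ]
    have hTS' : (S \ T).Nonempty := by
      rw [nonempty_iff_ne_empty]
      intro h
      have h1 : S ⊆ T := sdiff_eq_empty_iff_subset.1 h
      have h2 : x.1 + y.1 = oneS S := by
        apply Subtype.ext
        funext π
        show x.1.1 π + y.1.1 π = if π ∈ S then 1 else 0
        by_cases hπ : π ∈ S
        · rw [if_pos hπ]
          have h3 := (mem_filter.1 (h1 hπ)).2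
          rcases z2 (x.1.1 π) with h4 | h4 <;> rcases z2 (y.1.1 π) with h5 | h5
          · exact absurd (h4.trans h5.symm) h3
          · rw [h4, h5]; decide
          · rw [h4, h5]; decide
          · exact absurd (h4.trans h5.symm) h3
        · rw [x.1.2.1 π hπ, y.1.2.1 π hπ, if_neg hπ, add_zero]
      have h3 := congrArg (ph S) h2
      rw [map_add, LinearMap.mem_ker.1 x.2, LinearMap.mem_ker.1 y.2, ph_one hO] at h3
      revert h3
      decide
    constructor
    · rw [hδ]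
      show ¬ IsSquare (em0 e (dd (U1 S x.1.1)) * em0 e (dd (U1 S y.1.1)))
      rw [← map_mul, hcc]
      exact not_isSq e hT1 hTne hc
    · rw [hδ]
      show ¬ IsSquare (em0 e (dd (U1 S x.1.1)) * em0 e (dd (U1 S y.1.1)) * D)
      rw [hDd, ← map_mul, ← map_mul, hcc]
      have h1 : dd S = dd T * dd (S \ T) := by
        unfold dd
        rw [mul_comm]
        exact (prod_sdiff hTS).symm
      have h2 : c ^ 2 * dd T * dd S = (c * dd T) ^ 2 * dd (S \ T) := by
        rw [h1]; ring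
      rw [h2]
      exact not_isSq e (fun π hπ => hS π (sdiff_subset hπ)) hTS' (mul_ne_zero hc (dd_ne hT1))
  have h2i : (2 * em0 e im1 : K) ≠ 0 := by
    apply mul_ne_zero two_ne_zero
    intro h
    rw [h] at hi
    norm_num at hi
  have key : ∃ f : LinearMap.ker (ph S) → Pool.Agent.TH841.NF.D.Sha W,
      Function.Injective f ∧ ∀ i, f i + f i = 0 := by
    rcases hCu with hW | hW
    · refine hCV K W 0 D hW _ δ hδ0 ?_ ?_ ?_
      · intro x v
        rw [map_zero]
        exact (loc e hP hG hT hB hS (LinearMap.mem_ker.1 x.2) v).1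
      · intro x v
        exact inf hi v _ _ _ ((map_ne_zero _).2 (hδ0 x))
      · intro x y hxy
        obtain ⟨h1, h2⟩ := hglob x y hxy
        refine ⟨h1, ?_, ?_⟩
        · rintro ⟨q, hq⟩
          apply h2
          refine ⟨q / (2 * em0 e im1), ?_⟩
          have h3 : (2 * em0 e im1 : K) * (2 * em0 e im1) = -4 := by
            linear_combination 4 * hi
          rw [div_mul_div_comm, ← hq, h3]
          field_simp
          ring
        · intro h3
          rcases (hTor K (em0 e im1) D hi hD0 hDsq W hFin (δ x * δ y)).1 hW h3 with h4 | h4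
          · exact h1 h4
          · exact h2 h4
    · refine hCV K W 0 (-D ^ 2) hW _ δ hδ0 ?_ ?_ ?_
      · intro x v
        rw [map_zero]
        exact (loc e hP hG hT hB hS (LinearMap.mem_ker.1 x.2) v).2
      · intro x v
        exact inf hi v _ _ _ ((map_ne_zero _).2 (hδ0 x))
      · intro x y hxy
        obtain ⟨h1, h2⟩ := hglob x y hxy
        refine ⟨h1, ?_, ?_⟩
        · rintro ⟨q, hq⟩
          apply h1
          refine ⟨q / (2 * D), ?_⟩
          have h3 : (2 * D : K) ≠ 0 := mul_ne_zero two_ne_zero hD0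
          rw [div_mul_div_comm, ← hq]
          field_simp
          ring
        · intro h3
          rcases (hTor K (em0 e im1) D hi hD0 hDsq W hFin (δ x * δ y)).2 hW h3 with h4 | h4
          · exact h1 h4
          · exact h2 h4
  obtain ⟨f, hf1, hf2⟩ := key
  exact ⟨f ∘ ε, hf1.comp ε.injective, fun i => hf2 (ε i)⟩

end Pool.Agent.Q177.GN
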